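import Pool.Agent.Q225.Ver.Clo

set_option autoImplicit false
set_option linter.unusedSectionVars false

/-!
# Derivatives of quantities computed with few multiplications
-/

namespace Pool.Agent.Q225.Ver

open Pool.Agent.Q225.Add Pool.Agent.W956.KF Pool.Agent.H53R3 Pool.Agent.Q225.Dich

section

variable {K V T : Type} [Field K]

/-- the symmetric product of two vectors -/
def syM (p q : V → K) : V → V → K := fun i j => p i * q j + q i * p j

/-- products of a vector and a symmetric product -/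
def s3M (w w' w'' p q : V → K) : V → V → V → K := fun i j k =>
  w i * syM p q j k + w' j * syM p q i k + w'' k * syM p q i j

/-- the span of the symmetric products -/
def M2 (P Q : T → V → K) : Submodule K (V → V → K) :=
  Submodule.span K (Set.range fun t => syM (P t) (Q t))

/-- the span of the products of vectors and symmetric products -/
def M3 (P Q : T → V → K) : Submodule K (V → V → V → K) :=
  Submodule.span K {g | ∃ (w w' w'' : V → K) (t : T), g = s3M w w' w'' (P t) (Q t)}

theorem bb_memM {P Q : T → V → K} {f : V → V → K} (hf : f ∈ M2 P Q) (a : V → K) :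
    bb f a ∈ M3 P Q := by
  induction hf using Submodule.span_induction with
  | mem f hf =>
    obtain ⟨t, rfl⟩ := hf
    exact Submodule.subset_span ⟨a, a, a, t, rfl⟩
  | zero =>
    have : bb (0 : V → V → K) a = 0 := by
      funext i j k
      simp [bb]
    rw [this]
    exact Submodule.zero_mem _
  | add f g _ _ hf hg =>
    have : bb (f + g) a = bb f a + bb g a := by
      funext i j k
      simp only [bb, Pi.add_apply]
      ring
    rw [this]
    exact Submodule.add_mem _ hf hg
  | smul c f _ hf =>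
    have : bb (c • f) a = c • bb f a := by
      funext i j k
      simp only [bb, Pi.smul_apply, smul_eq_mul]
      ring
    rw [this]
    exact Submodule.smul_mem _ _ hf

theorem M3_repr [Fintype T] {P Q : T → V → K} {g : V → V → V → K} (hg : g ∈ M3 P Q) :
    ∃ w w' w'' : T → V → K, g = ∑ t, s3M (w t) (w' t) (w'' t) (P t) (Q t) := by
  classical
  induction hg using Submodule.span_induction with
  | mem g hg =>
    obtain ⟨w, w', w'', t, rfl⟩ := hg
    refine ⟨fun t' => if t' = t then w else 0, fun t' => if t' = t then w' else 0,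
      fun t' => if t' = t then w'' else 0, ?_⟩
    rw [Finset.sum_eq_single t]
    · simp
    · intro t' _ ht'
      funext i j k
      simp [s3M, ht']
    · simp
  | zero =>
    refine ⟨fun _ => 0, fun _ => 0, fun _ => 0, ?_⟩
    symm
    refine Finset.sum_eq_zero fun t _ => ?_
    funext i j k
    simp [s3M]
  | add f g _ _ hf hg =>
    obtain ⟨w, w', w'', hw⟩ := hf
    obtain ⟨z, z', z'', hz⟩ := hg
    refine ⟨fun t => w t + z t, fun t => w' t + z' t, fun t => w'' t + z'' t, ?_⟩
    rw [hw, hz, ← Finset.sum_add_distrib]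
    refine Finset.sum_congr rfl fun t _ => ?_
    funext i j k
    simp only [s3M, Pi.add_apply]
    ring
  | smul c g _ hg =>
    obtain ⟨w, w', w'', hw⟩ := hg
    refine ⟨fun t => c • w t, fun t => c • w' t, fun t => c • w'' t, ?_⟩
    rw [hw, Finset.smul_sum]
    refine Finset.sum_congr rfl fun t _ => ?_
    funext i j k
    simp only [s3M, Pi.smul_apply, smul_eq_mul]
    ring

/-- the rank of the elements of `M3` -/
theorem rank_of_memM3 [Fintype T] {I J L : Type} {P Q : T → V → K} {g : V → V → V → K}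
    (hg : g ∈ M3 P Q) (α : I → V) (β : J → V) (γ : L → V) :
    TensorRankLE (fun i j l => g (α i) (β j) (γ l)) (6 * Fintype.card T) := by
  obtain ⟨w, w', w'', rfl⟩ := M3_repr hg
  refine tensorRankLE_of_fintype (T := T × Fin 6)
    (fun t i => ![w t.1 (α i), w t.1 (α i), P t.1 (α i), Q t.1 (α i), P t.1 (α i), Q t.1 (α i)] t.2)
    (fun t j => ![P t.1 (β j), Q t.1 (β j), w' t.1 (β j), w' t.1 (β j), Q t.1 (β j),
      P t.1 (β j)] t.2)
    (fun t l => ![Q t.1 (γ l), P t.1 (γ l), Q t.1 (γ l), P t.1 (γ l), w'' t.1 (γ l),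
      w'' t.1 (γ l)] t.2) ?_ ?_
  · intro i j l
    rw [Fintype.sum_prod_type]
    simp only [Finset.sum_apply]
    refine Finset.sum_congr rfl fun t _ => ?_
    simp only [s3M, syM, Fin.sum_univ_succ, Fin.sum_univ_zero, Matrix.cons_val_zero,
      Matrix.cons_val_succ, Matrix.cons_val_one]
    ring
  · rw [Fintype.card_prod, Fintype.card_fin]; ring

variable {D : V → K → K} (hD : ∀ i, IsDer (D i)) {θ : K → K} (hθ : IsDer θ)

/-- second derivatives up to multiples of `B` -/
def J2 (D : V → K → K) (θ : K → K) (P Q : T → V → K) (B : V → V → K) (w : K) : Prop :=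
  de2 D w - θ w • B ∈ M2 P Q

/-- third derivatives up to multiples of `B` -/
def J3 (D : V → K → K) (θ : K → K) (P Q : T → V → K) (B : V → V → V → K) (w : K) : Prop :=
  de3 D w - θ w • B ∈ M3 P Q

include hD

theorem de2_mul (u v : K) : de2 D (u * v) = u • de2 D v + v • de2 D u +
    syM (fun i => D i u) (fun i => D i v) := by
  funext i j
  simp only [de2, syM, Pi.add_apply, Pi.smul_apply, smul_eq_mul, (hD _).mul, (hD _).add]
  ring

theorem de3_mul (u v : K) : de3 D (u * v) = u • de3 D v + v • de3 D u +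
    (bb (de2 D u) (fun i => D i v) + bb (de2 D v) (fun i => D i u)) := by
  funext i j k
  simp only [de3, de2, bb, Pi.add_apply, Pi.smul_apply, smul_eq_mul, (hD _).mul, (hD _).add]
  ring

include hθ

theorem J2.mul {P Q : T → V → K} {B : V → V → K} {u v : K} (hu : J2 D θ P Q B u)
    (hv : J2 D θ P Q B v) (h : syM (fun i => D i u) (fun i => D i v) ∈ M2 P Q) :
    J2 D θ P Q B (u * v) := by
  have e : de2 D (u * v) - θ (u * v) • B = u • (de2 D v - θ v • B) + v • (de2 D u - θ u • B) +
      syM (fun i => D i u) (fun i => D i v) := by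
    rw [de2_mul hD, hθ.mul]
    funext i j
    simp only [Pi.add_apply, Pi.sub_apply, Pi.smul_apply, smul_eq_mul]
    ring
  rw [J2, e]
  exact Submodule.add_mem _ (Submodule.add_mem _ (Submodule.smul_mem _ _ hv)
    (Submodule.smul_mem _ _ hu)) h

theorem J2.div {P Q : T → V → K} {B : V → V → K} {u v : K} (hu : J2 D θ P Q B u)
    (hv : J2 D θ P Q B v) (hv0 : v ≠ 0)
    (h : syM (fun i => D i (u / v)) (fun i => D i v) ∈ M2 P Q) : J2 D θ P Q B (u / v) := by
  have huv : u / v * v = u := div_mul_cancel₀ _ hv0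
  have e1 := de2_mul hD (u / v) v
  have e2 := hθ.mul (u / v) v
  rw [huv] at e1 e2
  have e : de2 D (u / v) - θ (u / v) • B = v⁻¹ • ((de2 D u - θ u • B) -
      (u / v) • (de2 D v - θ v • B) - syM (fun i => D i (u / v)) (fun i => D i v)) := by
    rw [e1, e2]
    funext i j
    simp only [Pi.add_apply, Pi.sub_apply, Pi.smul_apply, smul_eq_mul]
    field_simp
    ring
  rw [J2, e]
  exact Submodule.smul_mem _ _ (Submodule.sub_mem _ (Submodule.sub_mem _ hu
    (Submodule.smul_mem _ _ hv)) h)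

theorem J3.mul {P Q : T → V → K} {B : V → V → V → K} {u v : K} (hu : J3 D θ P Q B u)
    (hv : J3 D θ P Q B v) (u2 : de2 D u ∈ M2 P Q) (v2 : de2 D v ∈ M2 P Q) :
    J3 D θ P Q B (u * v) := by
  have e : de3 D (u * v) - θ (u * v) • B = u • (de3 D v - θ v • B) + v • (de3 D u - θ u • B) +
      (bb (de2 D u) (fun i => D i v) + bb (de2 D v) (fun i => D i u)) := by
    rw [de3_mul hD, hθ.mul]
    funext i j k
    simp only [Pi.add_apply, Pi.sub_apply, Pi.smul_apply, smul_eq_mul]
    ring
  rw [J3, e]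
  exact Submodule.add_mem _ (Submodule.add_mem _ (Submodule.smul_mem _ _ hv)
    (Submodule.smul_mem _ _ hu)) (Submodule.add_mem _ (bb_memM u2 _) (bb_memM v2 _))

theorem J3.div {P Q : T → V → K} {B : V → V → V → K} {u v : K} (hu : J3 D θ P Q B u)
    (hv : J3 D θ P Q B v) (hv0 : v ≠ 0) (w2 : de2 D (u / v) ∈ M2 P Q)
    (v2 : de2 D v ∈ M2 P Q) : J3 D θ P Q B (u / v) := by
  have huv : u / v * v = u := div_mul_cancel₀ _ hv0
  have e1 := de3_mul hD (u / v) v
  have e2 := hθ.mul (u / v) v
  rw [huv] at e1 e2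
  have e : de3 D (u / v) - θ (u / v) • B = v⁻¹ • ((de3 D u - θ u • B) -
      (u / v) • (de3 D v - θ v • B) - (bb (de2 D (u / v)) (fun i => D i v) +
        bb (de2 D v) (fun i => D i (u / v)))) := by
    rw [e1, e2]
    funext i j k
    simp only [Pi.add_apply, Pi.sub_apply, Pi.smul_apply, smul_eq_mul]
    field_simp
    ring
  rw [J3, e]
  exact Submodule.smul_mem _ _ (Submodule.sub_mem _ (Submodule.sub_mem _ hu
    (Submodule.smul_mem _ _ hv)) (Submodule.add_mem _ (bb_memM w2 _) (bb_memM v2 _)))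

theorem J2.zero (P Q : T → V → K) (B : V → V → K) : J2 D θ P Q B 0 := by
  rw [J2, de2_zero hD, hθ.zero, zero_smul, sub_zero]
  exact Submodule.zero_mem _

theorem J3.zero (P Q : T → V → K) (B : V → V → V → K) : J3 D θ P Q B 0 := by
  rw [J3, de3_zero hD, hθ.zero, zero_smul, sub_zero]
  exact Submodule.zero_mem _

theorem J2.add {P Q : T → V → K} {B : V → V → K} {u v : K} (hu : J2 D θ P Q B u)
    (hv : J2 D θ P Q B v) : J2 D θ P Q B (u + v) := by
  have e : de2 D (u + v) - θ (u + v) • B = (de2 D u - θ u • B) + (de2 D v - θ v • B) := by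
    rw [de2_add hD, hθ.add, add_smul]
    abel
  rw [J2, e]
  exact Submodule.add_mem _ hu hv

theorem J3.add {P Q : T → V → K} {B : V → V → V → K} {u v : K} (hu : J3 D θ P Q B u)
    (hv : J3 D θ P Q B v) : J3 D θ P Q B (u + v) := by
  have e : de3 D (u + v) - θ (u + v) • B = (de3 D u - θ u • B) + (de3 D v - θ v • B) := by
    rw [de3_add hD, hθ.add, add_smul]
    abel
  rw [J3, e]
  exact Submodule.add_mem _ hu hv

section

variable {F : Type} [Field F] [Algebra F K] (hc : ∀ x (c : F), D x (algebraMap F K c) = 0)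
  (hcθ : ∀ c : F, θ (algebraMap F K c) = 0)

include hc hcθ

theorem J2.smul {P Q : T → V → K} {B : V → V → K} {u : K} (c : F) (hu : J2 D θ P Q B u) :
    J2 D θ P Q B (c • u) := by
  have e : de2 D (c • u) - θ (c • u) • B = algebraMap F K c • (de2 D u - θ u • B) := by
    funext i j
    simp only [de2, Pi.sub_apply, Pi.smul_apply, Algebra.smul_def c u, smul_eq_mul, (hD _).mul,
      hθ.mul, hc, hcθ, zero_mul, zero_add]
    ring
  rw [J2, e]
  exact Submodule.smul_mem _ _ hu

theorem J3.smul {P Q : T → V → K} {B : V → V → V → K} {u : K} (c : F) (hu : J3 D θ P Q B u) :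
    J3 D θ P Q B (c • u) := by
  have e : de3 D (c • u) - θ (c • u) • B = algebraMap F K c • (de3 D u - θ u • B) := by
    funext i j k
    simp only [de3, Pi.sub_apply, Pi.smul_apply, Algebra.smul_def c u, smul_eq_mul, (hD _).mul,
      hθ.mul, hc, hcθ, zero_mul, zero_add]
    ring
  rw [J3, e]
  exact Submodule.smul_mem _ _ hu

/-- **Relative derivatives of the results of a computation with few multiplications.** -/
theorem relM {G : Set K} {L : ℕ} {h : Fin L → K}
    (hrun : ∀ t, ∃ u v, u ∈ Submodule.span F (G ∪ {z | ∃ t' < t, z = h t'}) ∧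
      v ∈ Submodule.span F (G ∪ {z | ∃ t' < t, z = h t'}) ∧ (h t = u * v ∨ h t = u / v)) :
    ∃ P Q : Fin L → V → K,
      (∀ B, (∀ z ∈ G, J2 D θ P Q B z) → ∀ z ∈ Submodule.span F (G ∪ Set.range h),
        J2 D θ P Q B z) ∧
      (∀ B, (∀ z ∈ G, de2 D z ∈ M2 P Q) → (∀ z ∈ G, J3 D θ P Q B z) →
        ∀ z ∈ Submodule.span F (G ∪ Set.range h), J3 D θ P Q B z) := by
  obtain ⟨p, q, hpq⟩ := closedM hrun
  set P : Fin L → V → K := fun t i => D i (p t) with hP
  set Q : Fin L → V → K := fun t i => D i (q t) with hQ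
  set R : K → K → Prop := fun u v => syM (fun i => D i u) (fun i => D i v) ∈ M2 P Q with hR
  have hRt : ∀ t, R (p t) (q t) := fun t => Submodule.subset_span ⟨t, rfl⟩
  have key : ∀ B, (∀ z ∈ G, J2 D θ P Q B z) → ∀ z ∈ Submodule.span F (G ∪ Set.range h),
      J2 D θ P Q B z := fun B hB => hpq R hRt _ hB (J2.zero hD hθ P Q B)
    (fun u v hu hv => hu.add hD hθ hv) (fun c u hu => hu.smul hD hθ hc hcθ c)
    (fun u v hu hv huv => hu.mul hD hθ hv huv)
    (fun u v hu hv hv0 huv => hu.div hD hθ hv hv0 huv)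
  refine ⟨P, Q, key, fun B h2 h3 z hz => ?_⟩
  have h0 : ∀ w : K, de2 D w ∈ M2 P Q ↔ J2 D θ P Q 0 w := fun w => by
    rw [J2, smul_zero, sub_zero]
  refine (hpq R hRt (fun w => de2 D w ∈ M2 P Q ∧ J3 D θ P Q B w) (fun z hz => ⟨h2 z hz, h3 z hz⟩)
    ⟨(h0 _).2 (J2.zero hD hθ P Q 0), J3.zero hD hθ P Q B⟩ (fun u v hu hv => ?_)
    (fun c u hu => ?_) (fun u v hu hv huv => ?_) (fun u v hu hv hv0 huv => ?_) z hz).2
  · exact ⟨(h0 _).2 (((h0 _).1 hu.1).add hD hθ ((h0 _).1 hv.1)), hu.2.add hD hθ hv.2⟩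
  · exact ⟨(h0 _).2 (((h0 _).1 hu.1).smul hD hθ hc hcθ c), hu.2.smul hD hθ hc hcθ c⟩
  · exact ⟨(h0 _).2 (((h0 _).1 hu.1).mul hD hθ ((h0 _).1 hv.1) huv),
      hu.2.mul hD hθ hv.2 hu.1 hv.1⟩
  · have w2 : de2 D (u / v) ∈ M2 P Q :=
      (h0 _).2 (((h0 _).1 hu.1).div hD hθ ((h0 _).1 hv.1) hv0 huv)
    exact ⟨w2, hu.2.div hD hθ hv.2 hv0 w2 hv.1⟩

end

end

end Pool.Agent.Q225.Ver
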