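import Pool.Agent.Q225.Dich.Meas

set_option autoImplicit false
set_option linter.unusedSectionVars false

/-!
# Closure properties of quantities computed with few additions or few multiplications
-/

namespace Pool.Agent.Q225.Ver

open Pool.Agent.Q225.Add Pool.Agent.W956.KF Pool.Agent.H53R3 Pool.Agent.Q225.Dich

section closure

variable {K : Type} [Field K]

/-- properties which are compatible with products, quotients and some sums -/
theorem closedP {G : Set K} {s : ℕ} {h : Fin s → K}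
    (hrun : ∀ t, ∃ u v, Mon (G ∪ {z | ∃ t' < t, z = h t'}) u ∧
      Mon (G ∪ {z | ∃ t' < t, z = h t'}) v ∧ h t = u + v) :
    ∃ g : Fin s × Fin 3 → K, ∀ (R : Set K), (∀ t, g t ∈ R) → ∀ X : K → Prop, (∀ z ∈ G, X z) →
      (∀ u v, X u → X v → X (u * v)) → (∀ u v, X u → X v → X (u / v)) →
      (∀ u v, X u → X v → u ∈ R → v ∈ R → u + v ∈ R → X (u + v)) →
      ∀ z, Mon (G ∪ Set.range h) z → X z := by
  choose u v hu hv huv using hrun
  refine ⟨fun t => if t.2 = 0 then u t.1 else if t.2 = 1 then v t.1 else h t.1,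
    fun R hR X hG hm hd ha => ?_⟩
  have hmon : ∀ S : Set K, (∀ z ∈ S, X z) → ∀ z, Mon (G ∪ S) z → X z := by
    intro S hS z hz
    induction hz with
    | of x hx =>
      rcases hx with hx | hx
      · exact hG x hx
      · exact hS x hx
    | mul x y _ _ ihx ihy => exact hm x y ihx ihy
    | div x y _ _ ihx ihy => exact hd x y ihx ihy
  have hall : ∀ t : Fin s, X (h t) := by
    intro t
    induction t using WellFoundedLT.induction with
    | ind t ih =>
      have hS : ∀ z ∈ {z | ∃ t' < t, z = h t'}, X z := by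
        rintro z ⟨t', ht', rfl⟩
        exact ih t' ht'
      rw [huv]
      refine ha _ _ (hmon _ hS _ (hu t)) (hmon _ hS _ (hv t)) ?_ ?_ ?_
      · simpa using hR (t, 0)
      · simpa using hR (t, 1)
      · rw [← huv]
        simpa using hR (t, 2)
  refine hmon (Set.range h) ?_
  rintro _ ⟨t, rfl⟩
  exact hall t

/-- properties which are compatible with linear combinations and some products -/
theorem closedM {F : Type} [Field F] [Algebra F K] {G : Set K} {L : ℕ} {h : Fin L → K}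
    (hrun : ∀ t, ∃ u v, u ∈ Submodule.span F (G ∪ {z | ∃ t' < t, z = h t'}) ∧
      v ∈ Submodule.span F (G ∪ {z | ∃ t' < t, z = h t'}) ∧ (h t = u * v ∨ h t = u / v)) :
    ∃ p q : Fin L → K, ∀ (R : K → K → Prop), (∀ t, R (p t) (q t)) → ∀ X : K → Prop,
      (∀ z ∈ G, X z) → X 0 → (∀ u v, X u → X v → X (u + v)) → (∀ (c : F) u, X u → X (c • u)) →
      (∀ u v, X u → X v → R u v → X (u * v)) →
      (∀ u v, X u → X v → v ≠ 0 → R (u / v) v → X (u / v)) →
      ∀ z ∈ Submodule.span F (G ∪ Set.range h), X z := by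
  have hrun' : ∀ t, ∃ u v p q : K,
      u ∈ Submodule.span F (G ∪ {z | ∃ t' < t, z = h t'}) ∧
      v ∈ Submodule.span F (G ∪ {z | ∃ t' < t, z = h t'}) ∧
      ((h t = u * v ∧ p = u ∧ q = v) ∨ (h t = u / v ∧ p = h t ∧ q = v)) := by
    intro t
    obtain ⟨u, v, hu, hv', h1 | h1⟩ := hrun t
    · exact ⟨u, v, u, v, hu, hv', Or.inl ⟨h1, rfl, rfl⟩⟩
    · exact ⟨u, v, h t, v, hu, hv', Or.inr ⟨h1, rfl, rfl⟩⟩
  choose u v p q hu hv huv using hrun'
  refine ⟨p, q, fun R hR X hG h0 ha hs hm hd => ?_⟩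
  have hspan : ∀ S : Set K, (∀ z ∈ S, X z) → ∀ z ∈ Submodule.span F (G ∪ S), X z := by
    intro S hS z hz
    induction hz using Submodule.span_induction with
    | mem x hx =>
      rcases hx with hx | hx
      · exact hG x hx
      · exact hS x hx
    | zero => exact h0
    | add x y _ _ hx hy => exact ha x y hx hy
    | smul c x _ hx => exact hs c x hx
  have hall : ∀ t : Fin L, X (h t) := by
    intro t
    induction t using WellFoundedLT.induction with
    | ind t ih =>
      have hS : ∀ z ∈ {z | ∃ t' < t, z = h t'}, X z := by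
        rintro z ⟨t', ht', rfl⟩
        exact ih t' ht'
      have h1 := hspan _ hS _ (hu t)
      have h2 := hspan _ hS _ (hv t)
      have h3 := hR t
      rcases huv t with ⟨h4, h5, h6⟩ | ⟨h4, h5, h6⟩
      · rw [h5, h6] at h3
        rw [h4]
        exact hm _ _ h1 h2 h3
      · rw [h5, h6, h4] at h3
        rw [h4]
        by_cases hv0 : v t = 0
        · rw [hv0, div_zero]
          exact h0
        · exact hd _ _ h1 h2 hv0 h3
  refine hspan (Set.range h) ?_
  rintro _ ⟨t, rfl⟩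
  exact hall t

end closure

section rel

variable {K V T : Type} [Field K] {D : V → K → K} (hD : ∀ i, IsDer (D i)) {θ : K → K}
  (hθ : IsDer θ)

/-- logarithmic second derivatives up to multiples of `A` -/
def I2 (D : V → K → K) (θ : K → K) (P : T → V → K) (A : V → V → K) (w : K) : Prop :=
  lo2 D w - (θ w / w) • A ∈ Q2 P

/-- logarithmic third derivatives up to multiples of `A` -/
def I3 (D : V → K → K) (θ : K → K) (P : T → V → K) (A : V → V → V → K) (w : K) : Prop :=
  lo3 D w - (θ w / w) • A ∈ Q3 P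

include hD hθ

theorem I2.zero (P : T → V → K) (A : V → V → K) : I2 D θ P A 0 := by
  rw [I2, lo2_zero hD, div_zero, zero_smul, sub_zero]
  exact Submodule.zero_mem _

theorem I3.zero (P : T → V → K) (A : V → V → V → K) : I3 D θ P A 0 := by
  rw [I3, lo3_zero hD, div_zero, zero_smul, sub_zero]
  exact Submodule.zero_mem _

theorem I2.mul {P : T → V → K} {A : V → V → K} {u v : K} (hu : I2 D θ P A u)
    (hv : I2 D θ P A v) : I2 D θ P A (u * v) := by
  rcases eq_or_ne u 0 with h | h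
  · rw [h, zero_mul]; exact I2.zero hD hθ P A
  rcases eq_or_ne v 0 with h' | h'
  · rw [h', mul_zero]; exact I2.zero hD hθ P A
  have e : lo2 D (u * v) - (θ (u * v) / (u * v)) • A =
      (lo2 D u - (θ u / u) • A) + (lo2 D v - (θ v / v) • A) := by
    rw [lo2_mul hD h h', der_mul_div hθ h h', add_smul]
    abel
  rw [I2, e]
  exact Submodule.add_mem _ hu hv

theorem I2.div {P : T → V → K} {A : V → V → K} {u v : K} (hu : I2 D θ P A u)
    (hv : I2 D θ P A v) : I2 D θ P A (u / v) := by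
  rcases eq_or_ne u 0 with h | h
  · rw [h, zero_div]; exact I2.zero hD hθ P A
  rcases eq_or_ne v 0 with h' | h'
  · rw [h', div_zero]; exact I2.zero hD hθ P A
  have e : lo2 D (u / v) - (θ (u / v) / (u / v)) • A =
      (lo2 D u - (θ u / u) • A) - (lo2 D v - (θ v / v) • A) := by
    rw [lo2_div hD h h', der_div_div hθ h h', sub_smul]
    abel
  rw [I2, e]
  exact Submodule.sub_mem _ hu hv

theorem I3.mul {P : T → V → K} {A : V → V → V → K} {u v : K} (hu : I3 D θ P A u)
    (hv : I3 D θ P A v) : I3 D θ P A (u * v) := by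
  rcases eq_or_ne u 0 with h | h
  · rw [h, zero_mul]; exact I3.zero hD hθ P A
  rcases eq_or_ne v 0 with h' | h'
  · rw [h', mul_zero]; exact I3.zero hD hθ P A
  have e : lo3 D (u * v) - (θ (u * v) / (u * v)) • A =
      (lo3 D u - (θ u / u) • A) + (lo3 D v - (θ v / v) • A) := by
    rw [lo3_mul hD h h', der_mul_div hθ h h', add_smul]
    abel
  rw [I3, e]
  exact Submodule.add_mem _ hu hv

theorem I3.div {P : T → V → K} {A : V → V → V → K} {u v : K} (hu : I3 D θ P A u)
    (hv : I3 D θ P A v) : I3 D θ P A (u / v) := by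
  rcases eq_or_ne u 0 with h | h
  · rw [h, zero_div]; exact I3.zero hD hθ P A
  rcases eq_or_ne v 0 with h' | h'
  · rw [h', div_zero]; exact I3.zero hD hθ P A
  have e : lo3 D (u / v) - (θ (u / v) / (u / v)) • A =
      (lo3 D u - (θ u / u) • A) - (lo3 D v - (θ v / v) • A) := by
    rw [lo3_div hD h h', der_div_div hθ h h', sub_smul]
    abel
  rw [I3, e]
  exact Submodule.sub_mem _ hu hv

theorem I2.de {P : T → V → K} {A : V → V → K} {u : K} (hu : I2 D θ P A u)
    (pu : lam D u ∈ Set.range P) : de2 D u - θ u • A ∈ Q2 P := by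
  rcases eq_or_ne u 0 with h | h
  · rw [h, de2_zero hD, hθ.zero, zero_smul, sub_zero]
    exact Submodule.zero_mem _
  have e : de2 D u - θ u • A = u • (lo2 D u - (θ u / u) • A) + u • sq2 (lam D u) := by
    rw [de2_eq hD u, smul_add, smul_sub, smul_smul, mul_div_cancel₀ _ h]
    abel
  rw [e]
  exact Submodule.add_mem _ (Submodule.smul_mem _ _ hu) (Submodule.smul_mem _ _ (sq2_lam_mem hD pu))

theorem I2.of_de {P : T → V → K} {A : V → V → K} {u : K} (hu : de2 D u - θ u • A ∈ Q2 P)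
    (pu : lam D u ∈ Set.range P) : I2 D θ P A u := by
  rcases eq_or_ne u 0 with h | h
  · rw [h]; exact I2.zero hD hθ P A
  have e : lo2 D u - (θ u / u) • A = u⁻¹ • (de2 D u - θ u • A) - sq2 (lam D u) := by
    rw [smul_sub, smul_smul, de2_eq hD u, smul_smul, inv_mul_cancel₀ h, one_smul, div_eq_inv_mul]
    abel
  rw [I2, e]
  exact Submodule.sub_mem _ (Submodule.smul_mem _ _ hu) (sq2_lam_mem hD pu)

theorem I3.de {P : T → V → K} {A : V → V → V → K} {u : K} (hu : I3 D θ P A u)
    (h2 : lo2 D u ∈ Q2 P) (pu : lam D u ∈ Set.range P) : de3 D u - θ u • A ∈ Q3 P := by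
  rcases eq_or_ne u 0 with h | h
  · rw [h, de3_zero hD, hθ.zero, zero_smul, sub_zero]
    exact Submodule.zero_mem _
  have e : de3 D u - θ u • A = u • (lo3 D u - (θ u / u) • A) +
      (u • bb (lo2 D u) (lam D u) + u • cu3 (lam D u) (lam D u) (lam D u)) := by
    rw [de3_eq hD u, smul_add, smul_add, smul_sub, smul_smul, mul_div_cancel₀ _ h]
    abel
  rw [e]
  exact Submodule.add_mem _ (Submodule.smul_mem _ _ hu) (Submodule.add_mem _
    (Submodule.smul_mem _ _ (bb_mem h2 _)) (Submodule.smul_mem _ _ (cu3_lam_mem hD pu)))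

theorem I3.of_de {P : T → V → K} {A : V → V → V → K} {u : K} (hu : de3 D u - θ u • A ∈ Q3 P)
    (h2 : lo2 D u ∈ Q2 P) (pu : lam D u ∈ Set.range P) : I3 D θ P A u := by
  rcases eq_or_ne u 0 with h | h
  · rw [h]; exact I3.zero hD hθ P A
  have e : lo3 D u - (θ u / u) • A = u⁻¹ • (de3 D u - θ u • A) -
      (bb (lo2 D u) (lam D u) + cu3 (lam D u) (lam D u) (lam D u)) := by
    rw [smul_sub, smul_smul, de3_eq hD u, smul_smul, inv_mul_cancel₀ h, one_smul, div_eq_inv_mul]
    abel
  rw [I3, e]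
  exact Submodule.sub_mem _ (Submodule.smul_mem _ _ hu) (Submodule.add_mem _ (bb_mem h2 _)
    (cu3_lam_mem hD pu))

theorem I2.add {P : T → V → K} {A : V → V → K} {u v : K} (hu : I2 D θ P A u)
    (hv : I2 D θ P A v) (pu : lam D u ∈ Set.range P) (pv : lam D v ∈ Set.range P)
    (ps : lam D (u + v) ∈ Set.range P) : I2 D θ P A (u + v) := by
  refine I2.of_de hD hθ ?_ ps
  have e : de2 D (u + v) - θ (u + v) • A = (de2 D u - θ u • A) + (de2 D v - θ v • A) := by
    rw [de2_add hD, hθ.add, add_smul]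
    abel
  rw [e]
  exact Submodule.add_mem _ (hu.de hD hθ pu) (hv.de hD hθ pv)

theorem I3.add {P : T → V → K} {A : V → V → V → K} {u v : K} (hu : I3 D θ P A u)
    (hv : I3 D θ P A v) (u2 : lo2 D u ∈ Q2 P) (v2 : lo2 D v ∈ Q2 P) (s2 : lo2 D (u + v) ∈ Q2 P)
    (pu : lam D u ∈ Set.range P) (pv : lam D v ∈ Set.range P)
    (ps : lam D (u + v) ∈ Set.range P) : I3 D θ P A (u + v) := by
  refine I3.of_de hD hθ ?_ s2 ps
  have e : de3 D (u + v) - θ (u + v) • A = (de3 D u - θ u • A) + (de3 D v - θ v • A) := by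
    rw [de3_add hD, hθ.add, add_smul]
    abel
  rw [e]
  exact Submodule.add_mem _ (hu.de hD hθ u2 pu) (hv.de hD hθ v2 pv)

/-- **Relative derivatives of the results of a computation with few additions.** -/
theorem relP {G : Set K} {s : ℕ} {h : Fin s → K}
    (hrun : ∀ t, ∃ u v, Mon (G ∪ {z | ∃ t' < t, z = h t'}) u ∧
      Mon (G ∪ {z | ∃ t' < t, z = h t'}) v ∧ h t = u + v) :
    ∃ g : Fin s × Fin 3 → K, ∀ P : T → V → K, (∀ t, lam D (g t) ∈ Set.range P) →
      (∀ A, (∀ z ∈ G, I2 D θ P A z) → ∀ z, Mon (G ∪ Set.range h) z → I2 D θ P A z) ∧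
      (∀ A, (∀ z ∈ G, lo2 D z ∈ Q2 P) → (∀ z ∈ G, I3 D θ P A z) →
        ∀ z, Mon (G ∪ Set.range h) z → I3 D θ P A z) := by
  obtain ⟨g, hg⟩ := closedP hrun
  refine ⟨g, fun P hP => ?_⟩
  have key : ∀ A, (∀ z ∈ G, I2 D θ P A z) → ∀ z, Mon (G ∪ Set.range h) z → I2 D θ P A z :=
    fun A hA => hg {w | lam D w ∈ Set.range P} hP _ hA (fun u v hu hv => hu.mul hD hθ hv)
      (fun u v hu hv => hu.div hD hθ hv) (fun u v hu hv pu pv ps => hu.add hD hθ hv pu pv ps)
  refine ⟨key, fun A h2 h3 z hz => ?_⟩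
  refine (hg {w | lam D w ∈ Set.range P} hP (fun w => lo2 D w ∈ Q2 P ∧ I3 D θ P A w)
    (fun z hz => ⟨h2 z hz, h3 z hz⟩) (fun u v hu hv => ⟨?_, hu.2.mul hD hθ hv.2⟩)
    (fun u v hu hv => ⟨?_, hu.2.div hD hθ hv.2⟩) (fun u v hu hv pu pv ps => ?_) z hz).2
  · rcases eq_or_ne u 0 with h | h
    · rw [h, zero_mul, lo2_zero hD]; exact Submodule.zero_mem _
    rcases eq_or_ne v 0 with h' | h'
    · rw [h', mul_zero, lo2_zero hD]; exact Submodule.zero_mem _
    rw [lo2_mul hD h h']
    exact Submodule.add_mem _ hu.1 hv.1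
  · rcases eq_or_ne u 0 with h | h
    · rw [h, zero_div, lo2_zero hD]; exact Submodule.zero_mem _
    rcases eq_or_ne v 0 with h' | h'
    · rw [h', div_zero, lo2_zero hD]; exact Submodule.zero_mem _
    rw [lo2_div hD h h']
    exact Submodule.sub_mem _ hu.1 hv.1
  · have h0 : ∀ w : K, lo2 D w ∈ Q2 P ↔ I2 D θ P 0 w := fun w => by
      rw [I2, smul_zero, sub_zero]
    have s2 : lo2 D (u + v) ∈ Q2 P := (h0 _).2 (((h0 _).1 hu.1).add hD hθ ((h0 _).1 hv.1) pu pv ps)
    exact ⟨s2, hu.2.add hD hθ hv.2 hu.1 hv.1 s2 pu pv ps⟩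

end rel

end Pool.Agent.Q225.Ver
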